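import Mathlib
import Pool.Agent.Helper69.DH.Stmts5

set_option autoImplicit false

/-! The space of (diagonalizable) norms on `ℚ_p^D`: definitions and the statements of the modules
of the block NA. -/

namespace Pool.Agent.Helper71.NA

open scoped NNReal
open Matrix

/-- positive real number `exp x` -/
noncomputable def ex (x : ℝ) : ℝ≥0 := ⟨Real.exp x, (Real.exp_pos x).le⟩

@[simp] lemma ex_coe (x : ℝ) : (ex x : ℝ) = Real.exp x := rfl
lemma ex_pos (x : ℝ) : 0 < ex x := Real.exp_pos x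
lemma ex_ne (x : ℝ) : ex x ≠ 0 := (ex_pos x).ne'
lemma ex_inj {x y : ℝ} (h : ex x = ex y) : x = y := Real.exp_injective (congrArg NNReal.toReal h)

/-- Euclidean norm of a vector -/
noncomputable def en {n : ℕ} (v : Fin n → ℝ) : ℝ := Real.sqrt (∑ i, v i ^ 2)

variable {p : ℕ} [Fact p.Prime] {D : ℕ}

/-- the norm with orthogonal basis the columns of `g` and with weights `exp (w i)` -/
noncomputable def nm (g : GL (Fin D) ℚ_[p]) (w : Fin D → ℝ) (x : Fin D → ℚ_[p]) : ℝ≥0 :=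
  Finset.univ.sup fun i => ‖(((g⁻¹ : GL (Fin D) ℚ_[p]) : Matrix (Fin D) (Fin D) ℚ_[p]) *ᵥ x) i‖₊ *
    ex (w i)

variable (p D) in
/-- the space of norms -/
def NS : Type := {z : (Fin D → ℚ_[p]) → ℝ≥0 // ∃ (g : GL (Fin D) ℚ_[p]) (w : Fin D → ℝ), z = nm g w}

/-- the point with basis `g` and weights `w` -/
noncomputable def mk (g : GL (Fin D) ℚ_[p]) (w : Fin D → ℝ) : NS p D := ⟨nm g w, g, w, rfl⟩

lemma exists_mk (x : NS p D) : ∃ (g : GL (Fin D) ℚ_[p]) (w : Fin D → ℝ), x = mk g w := by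
  obtain ⟨z, g, w, h⟩ := x
  exact ⟨g, w, Subtype.ext h⟩

/-- translate of a norm -/
lemma nm_mul (g h : GL (Fin D) ℚ_[p]) (w : Fin D → ℝ) (x : Fin D → ℚ_[p]) :
    nm (g * h) w x =
      nm h w (((g⁻¹ : GL (Fin D) ℚ_[p]) : Matrix (Fin D) (Fin D) ℚ_[p]) *ᵥ x) := by
  unfold nm
  rw [_root_.mul_inv_rev, Units.val_mul]
  simp only [Matrix.mulVec_mulVec]

/-- action of `GL_D(ℚ_p)` on norms: `(g z)(x) = z (g⁻¹ x)` -/
noncomputable def ga (g : GL (Fin D) ℚ_[p]) (z : NS p D) : NS p D :=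
  ⟨fun x => z.1 (((g⁻¹ : GL (Fin D) ℚ_[p]) : Matrix (Fin D) (Fin D) ℚ_[p]) *ᵥ x), by
    obtain ⟨h, w, e⟩ := z.2
    refine ⟨g * h, w, ?_⟩
    funext x
    rw [nm_mul, e]⟩

lemma ga_mk (g h : GL (Fin D) ℚ_[p]) (w : Fin D → ℝ) : ga g (mk h w) = mk (g * h) w := by
  apply Subtype.ext
  funext x
  change nm h w _ = nm (g * h) w x
  rw [nm_mul]

lemma ga_one (z : NS p D) : ga 1 z = z := by
  obtain ⟨g, w, rfl⟩ := exists_mk z
  rw [ga_mk, one_mul]

lemma ga_mul (g h : GL (Fin D) ℚ_[p]) (z : NS p D) : ga (g * h) z = ga g (ga h z) := by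
  obtain ⟨k, w, rfl⟩ := exists_mk z
  rw [ga_mk, ga_mk, ga_mk, mul_assoc]

/-! ### statements -/

/-- any two norms have a common orthogonal basis -/
def ST_NA_COM : Prop := ∀ (p : ℕ) [Fact p.Prime] (D : ℕ) (x y : NS p D),
  ∃ (g : GL (Fin D) ℚ_[p]) (w w' : Fin D → ℝ), x = mk g w ∧ y = mk g w'

/-- the metric: on norms with a common orthogonal basis it is the Euclidean distance of the
weights; it is CAT(0), with the obvious points on geodesics -/
structure NSMet (p : ℕ) [Fact p.Prime] (D : ℕ) [MetricSpace (NS p D)] : Prop where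
  apt : ∀ (g : GL (Fin D) ℚ_[p]) (w w' : Fin D → ℝ), dist (mk g w) (mk g w') = en (w - w')
  cat : ∀ (g : GL (Fin D) ℚ_[p]) (w w' : Fin D → ℝ) (t : ℝ), 0 ≤ t → t ≤ 1 → ∀ z : NS p D,
    dist z (mk g ((1 - t) • w + t • w')) ^ 2 ≤ (1 - t) * dist z (mk g w) ^ 2 +
      t * dist z (mk g w') ^ 2 - t * (1 - t) * en (w - w') ^ 2

def ST_NA_MET : Prop := ∀ (p : ℕ) [Fact p.Prime] (D : ℕ),
  ∃ _ : MetricSpace (NS p D), NSMet p D

/-- properness -/
def ST_NA_PROP : Prop := ∀ (p : ℕ) [Fact p.Prime] (D : ℕ) [MetricSpace (NS p D)],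
  NSMet p D → ProperSpace (NS p D)

/-- virtually unipotent groups fix a norm -/
def ST_NA_FIX : Prop := ∀ (p : ℕ) [Fact p.Prime] (D : ℕ) (A A' : GL (Fin D) ℚ_[p]),
  Pool.Agent.Helper69.DH.VU A A' → ∃ x : NS p D, ga A x = x ∧ ga A' x = x

/-- groups with almost fixed points have integral characteristic polynomials -/
def ST_NA_CHARP : Prop := ∀ (p : ℕ) [Fact p.Prime] (D : ℕ) [MetricSpace (NS p D)],
  NSMet p D → ∀ A B : GL (Fin D) ℚ_[p],
    (∀ ε : ℝ, 0 < ε → ∃ x : NS p D, dist (ga A x) x < ε ∧ dist (ga B x) x < ε) →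
    ∀ h ∈ Subgroup.closure {A, B}, ∀ k : ℕ,
      ‖((h : Matrix (Fin D) (Fin D) ℚ_[p]).charpoly).coeff k‖ ≤ 1

/-- the atlas of facets -/
def ST_NA_ATLAS : Prop := ∀ (p : ℕ) [Fact p.Prime] (D : ℕ) [MetricSpace (NS p D)],
  NSMet p D → ∀ act : GL (Fin D) ℚ_[p] →* (NS p D ≃ᵢ NS p D), (∀ g x, act g x = ga g x) →
    Nonempty (Pool.Agent.Helper69.DH.Atlas (NS p D) (Set.range act) D)

/-- assembly -/
theorem st_NA (hC : ST_NA_COM) (hM : ST_NA_MET) (hP : ST_NA_PROP) (hF : ST_NA_FIX)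
    (hCh : ST_NA_CHARP) (hA : ST_NA_ATLAS) : Pool.Agent.Helper69.DH.ST_NA := by
  intro p _ D
  obtain ⟨M, hM⟩ := hM p D
  have hP := hP p D hM
  have hiso : ∀ (g : GL (Fin D) ℚ_[p]) (x y : NS p D), dist (ga g x) (ga g y) = dist x y := by
    intro g x y
    obtain ⟨h, w, w', rfl, rfl⟩ := hC p D x y
    rw [ga_mk, ga_mk, hM.apt, hM.apt]
  let act : GL (Fin D) ℚ_[p] →* (NS p D ≃ᵢ NS p D) :=
    { toFun := fun g =>
        { toFun := ga g
          invFun := ga g⁻¹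
          left_inv := fun x => by rw [← ga_mul, inv_mul_cancel, ga_one]
          right_inv := fun x => by rw [← ga_mul, mul_inv_cancel, ga_one]
          isometry_toFun := Isometry.of_dist_eq (hiso g) }
      map_one' := by
        ext x
        exact ga_one x
      map_mul' := fun g h => by
        ext x
        exact ga_mul g h x }
  have hact : ∀ g x, act g x = ga g x := fun _ _ => rfl
  refine ⟨NS p D, M, hP, ⟨mk 1 0⟩, act, ?_, hA p D hM act hact, ?_, ?_⟩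
  · intro x y t h0 h1
    obtain ⟨g, w, w', rfl, rfl⟩ := hC p D x y
    refine ⟨mk g ((1 - t) • w + t • w'), fun z => ?_⟩
    rw [hM.apt]
    exact hM.cat g w w' t h0 h1 z
  · intro A A' h
    obtain ⟨x, h1, h2⟩ := hF p D A A' h
    exact ⟨x, by rw [hact, h1], by rw [hact, h2]⟩
  · intro A B h
    refine hCh p D hM A B fun ε hε => ?_
    obtain ⟨x, h1, h2⟩ := h ε hε
    exact ⟨x, by rw [← hact]; exact h1, by rw [← hact]; exact h2⟩

end Pool.Agent.Helper71.NA
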