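import Pool.Agent.Helper71.NA.Ret

set_option autoImplicit false

/-! The metric on the space of norms: common orthogonal bases, distance, CAT(0) inequality. -/

namespace Pool.Agent.Helper71.NA

open scoped NNReal
open Matrix

section diag
variable {K : Type} [NormedField K] {V : Type} [AddCommGroup V] [Module K V]

/-- the retraction is the identity on the apartment of the flag -/
theorem Qv_diag [IsUltrametricDist K] : ∀ (m n : ℕ) (b : Fin n → V) (f : Fin n → V →ₗ[K] K)
    (w : Fin n → ℝ) (l : Fin m → Fin n), Function.Injective l →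
    (∀ i j, f i (b j) = if i = j then 1 else 0) →
    Qv K m (fun i => b (l i)) (Nf f w) = fun i => w (l i) := by
  intro m
  induction m with
  | zero =>
    intro n b f w l _ _
    funext i
    exact i.elim0
  | succ m ih =>
    intro n b f w l hl hfb
    obtain ⟨n, rfl⟩ : ∃ k, n = k + 1 := ⟨n - 1, by have := (l 0).pos; omega⟩
    set j₀ := l 0 with hj₀
    obtain ⟨q1, -, -, q4⟩ := piv f w (b j₀) j₀ (by rw [hfb]; simp) (fun k => by
        rw [hfb, hfb]
        by_cases hkj : k = j₀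
        · rw [hkj]
        · simp [hkj])
    have q5 : (fun k => f (j₀.succAbove k) - (f (j₀.succAbove k) (b j₀) / f j₀ (b j₀)) • f j₀) =
        fun k => f (j₀.succAbove k) := by
      funext k
      rw [hfb, if_neg (Fin.succAbove_ne j₀ k), zero_div, zero_smul, sub_zero]
    rw [q5] at q4
    have h1 : ∀ k : Fin m, ∃ a : Fin n, j₀.succAbove a = l k.succ := fun k =>
      Fin.exists_succAbove_eq (fun h => (Fin.succ_ne_zero k) (hl h))
    choose l' hl' using h1
    have hl'i : Function.Injective l' := by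
      intro a c hac
      have : l a.succ = l c.succ := by rw [← hl', ← hl', hac]
      exact Fin.succ_injective _ (hl this)
    have h2 := ih n (fun k => b (j₀.succAbove k)) (fun k => f (j₀.succAbove k))
      (fun k => w (j₀.succAbove k)) l' hl'i (fun a c => by rw [hfb]; simp)
    rw [Qv_succ]
    have e1 : Fin.tail (fun k => b (l k)) = fun k => b (j₀.succAbove (l' k)) := by
      funext k
      simp only [Fin.tail, hl']
    rw [e1, ← hj₀, q1, q4, h2, hfb]
    funext k
    rcases Fin.eq_zero_or_eq_succ k with rfl | ⟨k, rfl⟩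
    · simp [hj₀]
    · simp [hl']

end diag

variable {p : ℕ} [Fact p.Prime] {D : ℕ}

/-- coordinate functionals of a basis -/
noncomputable def fr (g : GL (Fin D) ℚ_[p]) (i : Fin D) : (Fin D → ℚ_[p]) →ₗ[ℚ_[p]] ℚ_[p] :=
  (LinearMap.proj i).comp
    (Matrix.mulVecLin ((g⁻¹ : GL (Fin D) ℚ_[p]) : Matrix (Fin D) (Fin D) ℚ_[p]))

lemma fr_apply (g : GL (Fin D) ℚ_[p]) (i : Fin D) (x : Fin D → ℚ_[p]) :
    fr g i x = (((g⁻¹ : GL (Fin D) ℚ_[p]) : Matrix (Fin D) (Fin D) ℚ_[p]) *ᵥ x) i := rfl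

lemma nm_eq (g : GL (Fin D) ℚ_[p]) (w : Fin D → ℝ) : nm g w = Nf (fr g) w := rfl

/-- basis vectors -/
noncomputable def cl (g : GL (Fin D) ℚ_[p]) (j : Fin D) : Fin D → ℚ_[p] :=
  (g : Matrix (Fin D) (Fin D) ℚ_[p]) *ᵥ Pi.single j 1

lemma fr_cl (g : GL (Fin D) ℚ_[p]) (i j : Fin D) : fr g i (cl g j) = if i = j then 1 else 0 := by
  rw [fr_apply, cl, Matrix.mulVec_mulVec, ← Units.val_mul, inv_mul_cancel, Units.val_one,
    Matrix.one_mulVec, Pi.single_apply]

lemma nm_zero_iff (g : GL (Fin D) ℚ_[p]) (w : Fin D → ℝ) (x : Fin D → ℚ_[p]) :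
    nm g w x = 0 ↔ x = 0 := by
  rw [nm_eq, Nf_zero_iff]
  constructor
  · intro h
    have h1 : ((g⁻¹ : GL (Fin D) ℚ_[p]) : Matrix (Fin D) (Fin D) ℚ_[p]) *ᵥ x = 0 := by
      funext i
      exact h i
    have h2 : (g : Matrix (Fin D) (Fin D) ℚ_[p]) *ᵥ
        (((g⁻¹ : GL (Fin D) ℚ_[p]) : Matrix (Fin D) (Fin D) ℚ_[p]) *ᵥ x) = 0 := by
      rw [h1, Matrix.mulVec_zero]
    rwa [Matrix.mulVec_mulVec, ← Units.val_mul, mul_inv_cancel, Units.val_one,
      Matrix.one_mulVec] at h2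
  · rintro rfl i
    exact map_zero _

/-- functionals without common kernel are the coordinates of a basis -/
lemma exists_fr (h : Fin D → (Fin D → ℚ_[p]) →ₗ[ℚ_[p]] ℚ_[p]) (hk : ∀ x, (∀ i, h i x = 0) → x = 0) :
    ∃ k : GL (Fin D) ℚ_[p], fr k = h := by
  set H : Matrix (Fin D) (Fin D) ℚ_[p] := Matrix.of fun i j => h i (Pi.single j 1) with hH
  have hHx : ∀ x i, (H *ᵥ x) i = h i x := by
    intro x i
    have h1 : x = ∑ j, x j • (Pi.single j 1 : Fin D → ℚ_[p]) := by
      funext k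
      simp [Finset.sum_apply, Pi.single_apply]
    conv_rhs => rw [h1, map_sum]
    simp only [Matrix.mulVec, dotProduct, hH, Matrix.of_apply, map_smul, smul_eq_mul]
    exact Finset.sum_congr rfl fun j _ => mul_comm _ _
  have hinj : Function.Injective H.mulVec := by
    intro x y hxy
    have h2 : ∀ i, h i (x - y) = 0 := by
      intro i
      rw [map_sub, ← hHx, ← hHx]
      exact sub_eq_zero.mpr (congrFun hxy i)
    exact sub_eq_zero.mp (hk _ h2)
  have hu : IsUnit H := Matrix.mulVec_injective_iff_isUnit.mp hinj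
  obtain ⟨U, hU⟩ := hu
  refine ⟨U⁻¹, ?_⟩
  funext i
  refine LinearMap.ext fun x => ?_
  rw [fr_apply, inv_inv, hU, hHx]

/-- adapted common orthogonal basis -/
theorem adapted (g : GL (Fin D) ℚ_[p]) (w : Fin D → ℝ) (z : NS p D) :
    ∃ (k : GL (Fin D) ℚ_[p]) (l : Fin D → Fin D) (w2 : Fin D → ℝ), Function.Injective l ∧
      mk g w = mk k (fun i => w (l i)) ∧ z = mk k w2 ∧
      Qv ℚ_[p] D (fun i => cl g (l i)) z.1 = w2 := by
  obtain ⟨g', w', rfl⟩ := exists_mk z
  obtain ⟨l, h, w2, hl, h1, h2, -, h4⟩ := K2 D (cl g) (fr g) (fr g') w w' (fr_cl g) (fun x => by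
    rw [← nm_eq, ← nm_eq, nm_zero_iff, nm_zero_iff])
  obtain ⟨k, hk⟩ := exists_fr h (fun x hx => by
    rw [← nm_zero_iff g' w', nm_eq, h2, Nf_zero_iff]
    exact hx)
  refine ⟨k, l, w2, hl, ?_, ?_, h4⟩
  · apply Subtype.ext
    change nm g w = nm k _
    rw [nm_eq, nm_eq, hk, h1]
  · apply Subtype.ext
    change nm g' w' = nm k _
    rw [nm_eq, nm_eq, hk, h2]

theorem st_NA_COM : ST_NA_COM := by
  intro p _ D x y
  obtain ⟨g, w, rfl⟩ := exists_mk x
  obtain ⟨k, l, w2, -, h1, h2, -⟩ := adapted g w y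
  exact ⟨k, _, w2, h1, h2⟩

/-- the distance -/
noncomputable def nd (x y : NS p D) : ℝ :=
  ⨆ b : Fin D → (Fin D → ℚ_[p]), en (Qv ℚ_[p] D b x.1 - Qv ℚ_[p] D b y.1)

lemma nd_bdd (x y : NS p D) : BddAbove (Set.range fun b : Fin D → (Fin D → ℚ_[p]) =>
    en (Qv ℚ_[p] D b x.1 - Qv ℚ_[p] D b y.1)) := by
  obtain ⟨g, w, w', rfl, rfl⟩ := st_NA_COM p D x y
  refine ⟨en (w - w'), ?_⟩
  rintro _ ⟨b, rfl⟩
  exact K1 D D b (fr g) w w'

lemma le_nd (x y : NS p D) (b : Fin D → (Fin D → ℚ_[p])) :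
    en (Qv ℚ_[p] D b x.1 - Qv ℚ_[p] D b y.1) ≤ nd x y := le_ciSup (nd_bdd x y) b

lemma nd_apt (g : GL (Fin D) ℚ_[p]) (w w' : Fin D → ℝ) : nd (mk g w) (mk g w') = en (w - w') := by
  apply le_antisymm
  · exact ciSup_le fun b => K1 D D b (fr g) w w'
  · have h := le_nd (mk g w) (mk g w') (fun i => cl g i)
    have h1 := Qv_diag D D (cl g) (fr g) w id Function.injective_id (fr_cl g)
    have h2 := Qv_diag D D (cl g) (fr g) w' id Function.injective_id (fr_cl g)
    change en (Qv ℚ_[p] D (fun i => cl g i) (Nf (fr g) w) -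
      Qv ℚ_[p] D (fun i => cl g i) (Nf (fr g) w')) ≤ _ at h
    simp only [id] at h1 h2
    rw [h1, h2] at h
    exact h

lemma en_triangle {n : ℕ} (u v w : Fin n → ℝ) : en (u - w) ≤ en (u - v) + en (v - w) := by
  rw [en_dist, en_dist, en_dist]
  exact dist_triangle _ _ _

lemma en_comm {n : ℕ} (u v : Fin n → ℝ) : en (u - v) = en (v - u) := by
  rw [en_dist, en_dist, dist_comm]

lemma en_zero_iff {n : ℕ} (u v : Fin n → ℝ) : en (u - v) = 0 ↔ u = v := by
  rw [en_dist, dist_eq_zero]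
  constructor
  · intro h
    exact (WithLp.toLp_injective 2) h
  · rintro rfl
    rfl

variable (p D) in
/-- the metric space of norms -/
@[reducible] noncomputable def nsMetric : MetricSpace (NS p D) where
  dist := nd
  dist_self x := by
    obtain ⟨g, w, rfl⟩ := exists_mk x
    rw [nd_apt, en_zero_iff]
  dist_comm x y := by
    obtain ⟨g, w, w', rfl, rfl⟩ := st_NA_COM p D x y
    rw [nd_apt, nd_apt, en_comm]
  dist_triangle x y z := ciSup_le fun b =>
    (en_triangle _ (Qv ℚ_[p] D b y.1) _).trans (add_le_add (le_nd x y b) (le_nd y z b))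
  eq_of_dist_eq_zero {x y} h := by
    obtain ⟨g, w, w', rfl, rfl⟩ := st_NA_COM p D x y
    rw [nd_apt, en_zero_iff] at h
    rw [h]

theorem st_NA_MET : ST_NA_MET := by
  intro p _ D
  let _ : MetricSpace (NS p D) := nsMetric p D
  refine ⟨nsMetric p D, ⟨?_, ?_⟩⟩
  · exact nd_apt
  · intro g w w' t h0 h1 z
    set u : Fin D → ℝ := (1 - t) • w + t • w' with hu
    obtain ⟨k, l, w2, hl, e1, e2, e3⟩ := adapted g u z
    have hw : ∀ v : Fin D → ℝ, en (w2 - fun i => v (l i)) ≤ nd z (mk g v) := by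
      intro v
      have h := le_nd z (mk g v) (fun i => cl g (l i))
      have h2 : Qv ℚ_[p] D (fun i => cl g (l i)) (mk g v).1 = fun i => v (l i) :=
        Qv_diag D D (cl g) (fr g) v l hl (fr_cl g)
      rw [e3, h2] at h
      exact h
    have hm : nd z (mk g u) = en (w2 - fun i => u (l i)) := by rw [e1, e2, nd_apt]
    change nd z (mk g u) ^ 2 ≤ (1 - t) * nd z (mk g w) ^ 2 + t * nd z (mk g w') ^ 2 - _
    rw [hm]
    have q1 := pow_le_pow_left₀ (en_nonneg _) (hw w) 2
    have q2 := pow_le_pow_left₀ (en_nonneg _) (hw w') 2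
    have q3 : en (w2 - fun i => u (l i)) ^ 2 = (1 - t) * en (w2 - fun i => w (l i)) ^ 2 +
        t * en (w2 - fun i => w' (l i)) ^ 2 - t * (1 - t) * en (w - w') ^ 2 := by
      have q4 : en (w - w') ^ 2 = ∑ i, (w (l i) - w' (l i)) ^ 2 := by
        rw [en_sq]
        have hb : Function.Bijective l := Finite.injective_iff_bijective.mp hl
        exact (Equiv.sum_comp (Equiv.ofBijective l hb) (fun i => (w i - w' i) ^ 2)).symm
      rw [q4, en_sq, en_sq, en_sq, Finset.mul_sum, Finset.mul_sum, Finset.mul_sum,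
        ← Finset.sum_add_distrib, ← Finset.sum_sub_distrib]
      refine Finset.sum_congr rfl fun i _ => ?_
      simp only [hu, Pi.sub_apply, Pi.add_apply, Pi.smul_apply, smul_eq_mul]
      ring
    rw [q3]
    have q5 := mul_le_mul_of_nonneg_left q1 (sub_nonneg.mpr h1)
    have q6 := mul_le_mul_of_nonneg_left q2 h0
    linarith

end Pool.Agent.Helper71.NA
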