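import Pool.Agent.Helper71.NA.Sem

set_option autoImplicit false

/-! Retractions centered at flags: they do not increase distances along apartments, and every pair of
seminorms with the same kernel has an adapted common splitting. -/

namespace Pool.Agent.Helper71.NA

open scoped NNReal

section ret
variable {K : Type} [NormedField K] {V : Type} [AddCommGroup V] [Module K V]

variable (K) in
/-- logarithms of the successive quotient seminorms along a sequence of vectors -/
noncomputable def Qv : (m : ℕ) → (Fin m → V) → (V → ℝ≥0) → (Fin m → ℝ)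
  | 0, _, _ => Fin.elim0
  | m + 1, b, z => Fin.cons (Real.log (z (b 0))) (Qv m (Fin.tail b) (qt (K := K) z (b 0)))

lemma Qv_succ (m : ℕ) (b : Fin (m + 1) → V) (z : V → ℝ≥0) :
    Qv K (m + 1) b z =
      Fin.cons (Real.log (z (b 0))) (Qv K m (Fin.tail b) (qt (K := K) z (b 0))) := rfl

lemma en_cons {n : ℕ} (a a' : ℝ) (v v' : Fin n → ℝ) :
    en ((Fin.cons a v : Fin (n + 1) → ℝ) - (Fin.cons a' v' : Fin (n + 1) → ℝ)) ^ 2 =
      (a - a') ^ 2 + en (v - v') ^ 2 := by
  rw [en_sq, en_sq, Fin.sum_univ_succ]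
  simp [Pi.sub_apply]

lemma en_smul {n : ℕ} (c : ℝ) (v : Fin n → ℝ) : en (c • v) = |c| * en v := by
  rw [en, en, ← Real.sqrt_sq_eq_abs, ← Real.sqrt_mul (sq_nonneg c), Finset.mul_sum]
  congr 1
  refine Finset.sum_congr rfl fun i _ => ?_
  rw [Pi.smul_apply, smul_eq_mul, mul_pow]

lemma log_val (a : ℝ≥0) (ha : a ≠ 0) (x : ℝ) :
    Real.log ((a * ex x : ℝ≥0) : ℝ) = Real.log (a : ℝ) + x := by
  rw [NNReal.coe_mul, ex_coe, Real.log_mul (by exact_mod_cast ha) (Real.exp_pos x).ne',
    Real.log_exp]

theorem K1 [IsUltrametricDist K] : ∀ (m n : ℕ) (b : Fin m → V) (f : Fin n → V →ₗ[K] K)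
    (w w' : Fin n → ℝ), en (Qv K m b (Nf f w) - Qv K m b (Nf f w')) ≤ en (w - w') := by
  intro m
  induction m with
  | zero =>
    intro n b f w w'
    have : en (Qv K 0 b (Nf f w) - Qv K 0 b (Nf f w')) = 0 := by simp [en]
    rw [this]
    exact en_nonneg _
  | succ m ih =>
    intro n b f w w'
    by_cases h0 : ∀ i, f i (b 0) = 0
    · have e1 := (Nf_zero_iff f w (b 0)).mpr h0
      have e2 := (Nf_zero_iff f w' (b 0)).mpr h0
      rw [Qv_succ, Qv_succ, e1, e2, qt_ker (Nf_US f w) e1, qt_ker (Nf_US f w') e2]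
      refine le_trans (le_of_eq ?_) (ih n (Fin.tail b) f w w')
      rw [← sq_eq_sq₀ (en_nonneg _) (en_nonneg _), en_cons, sub_self]
      ring
    · push Not at h0
      obtain ⟨i₀, hi₀⟩ := h0
      obtain ⟨n, rfl⟩ : ∃ k, n = k + 1 := ⟨n - 1, by have := i₀.pos; omega⟩
      set c : ℝ → Fin (n + 1) → ℝ := fun t => w + t • (w' - w) with hc
      set G : ℝ → EuclideanSpace ℝ (Fin (m + 1)) :=
        fun t => WithLp.toLp 2 (Qv K (m + 1) b (Nf f (c t))) with hG
      set T : Fin (n + 1) → Set ℝ :=
        fun i => {t | f i (b 0) ≠ 0 ∧ ∀ k, ‖f k (b 0)‖₊ * ex (c t k) ≤ ‖f i (b 0)‖₊ * ex (c t i)}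
        with hT
      have hTc : ∀ i, IsClosed (T i) := by
        intro i
        by_cases hfi : f i (b 0) = 0
        · have : T i = ∅ := by
            ext t
            simp [hT, hfi]
          rw [this]
          exact isClosed_empty
        · have : T i = ⋂ k, {t : ℝ | ‖f k (b 0)‖ * Real.exp (c t k) ≤
              ‖f i (b 0)‖ * Real.exp (c t i)} := by
            ext t
            simp only [hT, Set.mem_ofPred_eq, Set.mem_iInter]
            constructor
            · rintro ⟨-, h⟩ k
              exact_mod_cast h k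
            · intro h
              exact ⟨hfi, fun k => by exact_mod_cast h k⟩
          rw [this]
          refine isClosed_iInter fun k => isClosed_le ?_ ?_
          · simp only [hc, Pi.add_apply, Pi.smul_apply, smul_eq_mul]
            fun_prop
          · simp only [hc, Pi.add_apply, Pi.smul_apply, smul_eq_mul]
            fun_prop
      have hcov : ∀ t ∈ Set.Icc (0 : ℝ) 1, ∃ i ∈ (Finset.univ : Finset (Fin (n + 1))), t ∈ T i := by
        intro t _
        obtain ⟨i, hi⟩ := Nf_exists f (c t) (b 0)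
        refine ⟨i, Finset.mem_univ _, ?_, fun k => ?_⟩
        · intro h1
          rw [h1, nnnorm_zero, zero_mul, Nf_zero_iff] at hi
          exact hi₀ (hi i₀)
        · rw [← hi]
          exact le_Nf f (c t) (b 0) k
      have hloc : ∀ i, ∀ s ∈ T i, ∀ t ∈ T i, dist (G s) (G t) ≤ en (w' - w) * |s - t| := by
        rintro i s ⟨hfi, hs⟩ t ⟨-, ht⟩
        obtain ⟨s1, -, -, s4⟩ := piv f (c s) (b 0) i hfi hs
        obtain ⟨t1, -, -, t4⟩ := piv f (c t) (b 0) i hfi ht
        have hn : ‖f i (b 0)‖₊ ≠ 0 := by rwa [Ne, nnnorm_eq_zero]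
        have h5 : c s - c t = (s - t) • (w' - w) := by
          funext k
          simp only [hc, Pi.sub_apply, Pi.add_apply, Pi.smul_apply, smul_eq_mul]
          ring
        have h6 : en (c s - c t) = en (w' - w) * |s - t| := by rw [h5, en_smul, mul_comm]
        rw [← h6, hG, ← en_dist, Qv_succ, Qv_succ, s1, t1, s4, t4]
        rw [← pow_le_pow_iff_left₀ (en_nonneg _) (en_nonneg _) two_ne_zero, en_cons,
          log_val _ hn, log_val _ hn]
        have h7 := ih n (Fin.tail b)
          (fun k => f (i.succAbove k) - (f (i.succAbove k) (b 0) / f i (b 0)) • f i)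
          (fun k => c s (i.succAbove k)) (fun k => c t (i.succAbove k))
        have h8 := pow_le_pow_left₀ (en_nonneg _) h7 2
        have h9 : en (c s - c t) ^ 2 = (c s i - c t i) ^ 2 +
            en ((fun k => c s (i.succAbove k)) - (fun k => c t (i.succAbove k))) ^ 2 := by
          rw [en_sq, en_sq, Fin.sum_univ_succAbove _ i]
          rfl
        rw [h9]
        have h10 : (Real.log ↑‖f i (b 0)‖₊ + c s i - (Real.log ↑‖f i (b 0)‖₊ + c t i)) ^ 2 =
            (c s i - c t i) ^ 2 := by ring
        rw [h10]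
        linarith
      have := chain_cover T hTc G (en (w' - w)) hloc Finset.univ 0 1 zero_le_one hcov
      rw [hG, ← en_dist] at this
      have e0 : c 0 = w := by simp [hc]
      have e1 : c 1 = w' := by simp [hc]
      rw [e0, e1] at this
      have e2 : en (w' - w) = en (w - w') := by
        rw [en, en]
        congr 1
        refine Finset.sum_congr rfl fun i _ => ?_
        simp only [Pi.sub_apply]
        ring
      rw [e2] at this
      linarith

/-- adapted common splitting -/
theorem K2 [IsUltrametricDist K] : ∀ (n : ℕ) (b : Fin n → V) (f f' : Fin n → V →ₗ[K] K)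
    (w w' : Fin n → ℝ), (∀ i j, f i (b j) = if i = j then 1 else 0) →
    (∀ x, Nf f w x = 0 ↔ Nf f' w' x = 0) →
    ∃ (l : Fin n → Fin n) (g : Fin n → V →ₗ[K] K) (w2 : Fin n → ℝ), Function.Injective l ∧
      Nf f w = Nf g (fun i => w (l i)) ∧ Nf f' w' = Nf g w2 ∧
      Qv K n (fun i => b (l i)) (Nf f w) = (fun i => w (l i)) ∧
      Qv K n (fun i => b (l i)) (Nf f' w') = w2 := by
  intro n
  induction n with
  | zero =>
    intro b f f' w w' _ _
    refine ⟨id, f, fun i => i.elim0, Function.injective_id, rfl, ?_, ?_, ?_⟩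
    · funext x
      simp [Nf]
    · funext i
      exact i.elim0
    · funext i
      exact i.elim0
  | succ n ih =>
    intro b f f' w w' hfb hker
    have hα : US K (Nf f w) := Nf_US f w
    have hβ : US K (Nf f' w') := Nf_US f' w'
    have hαb : ∀ j, Nf f w (b j) = ex (w j) := by
      intro j
      have h1 := piv f w (b j) j (by rw [hfb]; simp) (fun k => by
        rw [hfb, hfb]
        by_cases hkj : k = j
        · rw [hkj]
        · simp [hkj])
      rw [h1.1, hfb]
      simp
    have hβb : ∀ j, Nf f' w' (b j) ≠ 0 := by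
      intro j h
      have := (hker (b j)).mpr h
      rw [hαb] at this
      exact ex_ne _ this
    obtain ⟨j₀, -, hj₀⟩ := Finset.exists_max_image (Finset.univ : Finset (Fin (n + 1)))
      (fun j => Nf f' w' (b j) / ex (w j)) Finset.univ_nonempty
    -- β ≤ ρ α
    set ρ : ℝ≥0 := Nf f' w' (b j₀) / ex (w j₀) with hρ
    have hρα : ∀ x, Nf f' w' x ≤ ρ * Nf f w x := by
      intro x
      have h1 : ∀ x, Nf f' w' x = Nf f' w' (∑ j, f j x • b j) := by
        intro x
        have h2 : Nf f w (x - ∑ j, f j x • b j) = 0 := by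
          rw [Nf_zero_iff]
          intro i
          rw [map_sub, map_sum]
          simp [hfb]
        have h3 := (hker _).mp h2
        apply le_antisymm
        · calc Nf f' w' x = Nf f' w' ((x - ∑ j, f j x • b j) + ∑ j, f j x • b j) := by
                rw [sub_add_cancel]
            _ ≤ max (Nf f' w' (x - ∑ j, f j x • b j)) (Nf f' w' (∑ j, f j x • b j)) := hβ.add _ _
            _ = _ := by rw [h3, max_eq_right (zero_le)]
        · calc Nf f' w' (∑ j, f j x • b j) = Nf f' w' (x - (x - ∑ j, f j x • b j)) := by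
                rw [sub_sub_cancel]
            _ ≤ max (Nf f' w' x) (Nf f' w' (x - ∑ j, f j x • b j)) := hβ.sub _ _
            _ = _ := by rw [h3, max_eq_left (zero_le)]
      rw [h1]
      have h4 : ∀ s : Finset (Fin (n + 1)), Nf f' w' (∑ j ∈ s, f j x • b j) ≤ ρ * Nf f w x := by
        intro s
        induction s using Finset.induction_on with
        | empty => rw [Finset.sum_empty, hβ.zero]; exact zero_le
        | insert a s ha ihs =>
          rw [Finset.sum_insert ha]
          refine (hβ.add _ _).trans (max_le ?_ ihs)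
          rw [hβ.smul]
          have h5 : Nf f' w' (b a) ≤ ρ * ex (w a) := by
            have := hj₀ a (Finset.mem_univ a)
            rwa [div_le_iff₀ (ex_pos _)] at this
          calc ‖f a x‖₊ * Nf f' w' (b a) ≤ ‖f a x‖₊ * (ρ * ex (w a)) := mul_le_mul_right h5 _
            _ = ρ * (‖f a x‖₊ * ex (w a)) := by ring
            _ ≤ ρ * Nf f w x := mul_le_mul_right (le_Nf f w x a) _
      exact h4 Finset.univ
    -- pivot of b j₀ for β
    obtain ⟨i, hi⟩ := Nf_exists f' w' (b j₀)
    have hib : f' i (b j₀) ≠ 0 := by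
      intro h
      rw [h, nnnorm_zero, zero_mul] at hi
      exact hβb _ hi
    obtain ⟨-, p2, p3, p4⟩ := piv f' w' (b j₀) i hib (fun k => by
      rw [← hi]; exact le_Nf f' w' (b j₀) k)
    obtain ⟨-, -, -, q4⟩ := piv f w (b j₀) j₀ (by rw [hfb]; simp) (fun k => by
        rw [hfb, hfb]
        by_cases hkj : k = j₀
        · rw [hkj]
        · simp [hkj])
    have q5 : (fun k => f (j₀.succAbove k) - (f (j₀.succAbove k) (b j₀) / f j₀ (b j₀)) • f j₀) =
        fun k => f (j₀.succAbove k) := by
      funext k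
      rw [hfb, if_neg (Fin.succAbove_ne j₀ k), zero_div, zero_smul, sub_zero]
    rw [q5] at q4
    set φ : V →ₗ[K] K := (f' i (b j₀))⁻¹ • f' i with hφ
    have hρ0 : ρ ≠ 0 := div_ne_zero (hβb _) (ex_ne _)
    have p3α : ∀ x, ‖φ x‖₊ * Nf f w (b j₀) ≤ Nf f w x := by
      intro x
      have h1 := (p3 x).trans (hρα x)
      have h2 : Nf f' w' (b j₀) = ρ * Nf f w (b j₀) := by
        rw [hαb, hρ, div_mul_cancel₀ _ (ex_ne _)]
      rw [h2] at h1
      have h3 : ρ * (‖φ x‖₊ * Nf f w (b j₀)) ≤ ρ * Nf f w x := by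
        refine le_trans (le_of_eq ?_) h1
        ring
      exact le_of_mul_le_mul_left h3 (pos_iff_ne_zero.mpr hρ0)
    obtain ⟨l1, g1, w21, hl1, c1, c2, c3, c4⟩ := ih (fun k => b (j₀.succAbove k))
      (fun k => f (j₀.succAbove k))
      (fun k => f' (i.succAbove k) - (f' (i.succAbove k) (b j₀) / f' i (b j₀)) • f' i)
      (fun k => w (j₀.succAbove k)) (fun k => w' (i.succAbove k))
      (fun a c => by rw [hfb]; simp)
      (fun x => by
        rw [← q4, ← p4, qt_eq hα p2 p3α, qt_eq hβ p2 p3]
        exact hker _)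
    rw [← q4] at c1 c3
    rw [← p4] at c2 c4
    refine ⟨Fin.cons j₀ (fun k => j₀.succAbove (l1 k)), Fin.cons φ g1,
      Fin.cons (Real.log (Nf f' w' (b j₀))) w21, ?_, ?_, ?_, ?_, ?_⟩
    · intro a c hac
      rcases Fin.eq_zero_or_eq_succ a with rfl | ⟨a, rfl⟩ <;>
        rcases Fin.eq_zero_or_eq_succ c with rfl | ⟨c, rfl⟩
      · rfl
      · simp only [Fin.cons_zero, Fin.cons_succ] at hac
        exact absurd hac.symm (Fin.succAbove_ne _ _)
      · simp only [Fin.cons_zero, Fin.cons_succ] at hac
        exact absurd hac (Fin.succAbove_ne _ _)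
      · simp only [Fin.cons_succ] at hac
        rw [hl1 (Fin.succAbove_right_injective hac)]
    · funext x
      rw [split_eq hα p2 p3α x, Nf_split (Fin.cons φ g1) _ 0, c1, hαb]
      rfl
    · funext x
      have : Nf f' w' (b j₀) = ex (Real.log (Nf f' w' (b j₀))) := by
        apply NNReal.eq
        rw [ex_coe, Real.exp_log]
        exact_mod_cast pos_iff_ne_zero.mpr (hβb j₀)
      rw [split_eq hβ p2 p3 x, Nf_split (Fin.cons φ g1) _ 0, c2, this]
      simp only [Fin.cons_zero, Fin.zero_succAbove, Fin.cons_succ, ex_coe, Real.log_exp]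
    · rw [Qv_succ]
      have e1 : Fin.tail (fun k => b ((Fin.cons j₀ (fun k => j₀.succAbove (l1 k)) :
          Fin (n + 1) → Fin (n + 1)) k)) = fun k => b (j₀.succAbove (l1 k)) := by
        funext k
        simp [Fin.tail]
      rw [e1]
      simp only [Fin.cons_zero]
      rw [c3, hαb, ex_coe, Real.log_exp]
      funext k
      rcases Fin.eq_zero_or_eq_succ k with rfl | ⟨k, rfl⟩
      · simp
      · simp
    · rw [Qv_succ]
      have e1 : Fin.tail (fun k => b ((Fin.cons j₀ (fun k => j₀.succAbove (l1 k)) :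
          Fin (n + 1) → Fin (n + 1)) k)) = fun k => b (j₀.succAbove (l1 k)) := by
        funext k
        simp [Fin.tail]
      rw [e1]
      simp only [Fin.cons_zero]
      rw [c4]

end ret

end Pool.Agent.Helper71.NA
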