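import Pool.Agent.Helper71.NA.Defs

set_option autoImplicit false

/-! Diagonal seminorms, quotients, retractions at infinity. -/

namespace Pool.Agent.Helper71.NA

open scoped NNReal

lemma en_eq {n : ℕ} (v : Fin n → ℝ) : en v = ‖(WithLp.toLp 2 v : EuclideanSpace ℝ (Fin n))‖ := by
  rw [EuclideanSpace.norm_eq, en]
  congr 1
  exact Finset.sum_congr rfl fun i _ => by simp

lemma en_nonneg {n : ℕ} (v : Fin n → ℝ) : 0 ≤ en v := Real.sqrt_nonneg _

lemma en_sq {n : ℕ} (v : Fin n → ℝ) : en v ^ 2 = ∑ i, v i ^ 2 :=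
  Real.sq_sqrt (Finset.sum_nonneg fun i _ => sq_nonneg _)

lemma en_le_iff {n : ℕ} (v : Fin n → ℝ) {c : ℝ} (hc : 0 ≤ c) : en v ≤ c ↔ ∑ i, v i ^ 2 ≤ c ^ 2 := by
  rw [en, Real.sqrt_le_left hc]

lemma en_dist {n : ℕ} (v w : Fin n → ℝ) : en (v - w) =
    dist (WithLp.toLp 2 v : EuclideanSpace ℝ (Fin n)) (WithLp.toLp 2 w) := by
  rw [en_eq, dist_eq_norm]
  rfl

/-- chaining along a finite closed cover of an interval -/
lemma chain_cover {E : Type} [PseudoMetricSpace E] {κ : Type} [DecidableEq κ] (T : κ → Set ℝ)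
    (hT : ∀ k, IsClosed (T k)) (G : ℝ → E) (C : ℝ)
    (hG : ∀ k, ∀ s ∈ T k, ∀ t ∈ T k, dist (G s) (G t) ≤ C * |s - t|) (S : Finset κ) :
    ∀ a b : ℝ, a ≤ b → (∀ t ∈ Set.Icc a b, ∃ k ∈ S, t ∈ T k) → dist (G a) (G b) ≤ C * (b - a) := by
  induction S using Finset.strongInduction with
  | H S ih =>
    intro a b hab hcov
    obtain ⟨k, hk, hak⟩ := hcov a ⟨le_rfl, hab⟩
    set A : Set ℝ := T k ∩ Set.Icc a b with hA
    have hne : A.Nonempty := ⟨a, hak, le_rfl, hab⟩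
    have hbdd : BddAbove A := ⟨b, fun t ht => ht.2.2⟩
    have hcl : IsClosed A := (hT k).inter isClosed_Icc
    set t₁ := sSup A with ht₁
    have ht₁A : t₁ ∈ A := hcl.csSup_mem hne hbdd
    have h1 : dist (G a) (G t₁) ≤ C * (t₁ - a) := by
      have := hG k a hak t₁ ht₁A.1
      rwa [abs_sub_comm, abs_of_nonneg (sub_nonneg.mpr ht₁A.2.1)] at this
    rcases eq_or_lt_of_le ht₁A.2.2 with h2 | h2
    · rw [← h2]; exact h1
    · have hcov2 : ∀ t ∈ Set.Icc t₁ b, ∃ l ∈ S.erase k, t ∈ T l := by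
        have hsub : Set.Ioc t₁ b ⊆ ⋃ l ∈ S.erase k, T l := by
          intro t ht
          obtain ⟨l, hl, htl⟩ := hcov t ⟨ht₁A.2.1.trans ht.1.le, ht.2⟩
          have hlk : l ≠ k := by
            rintro rfl
            have : t ≤ t₁ := le_csSup hbdd ⟨htl, ht₁A.2.1.trans ht.1.le, ht.2⟩
            exact absurd this (not_le.mpr ht.1)
          exact Set.mem_biUnion (Finset.mem_erase.mpr ⟨hlk, hl⟩) htl
        have hclo : IsClosed (⋃ l ∈ S.erase k, T l) :=
          (S.erase k).finite_toSet.isClosed_biUnion fun l _ => hT l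
        have hsub2 : Set.Icc t₁ b ⊆ ⋃ l ∈ S.erase k, T l := by
          rw [← closure_Ioc h2.ne]
          exact hclo.closure_subset_iff.mpr hsub
        intro t ht
        have := hsub2 ht
        simp only [Set.mem_iUnion] at this
        obtain ⟨l, hl, htl⟩ := this
        exact ⟨l, hl, htl⟩
      have h3 := ih (S.erase k) (Finset.erase_ssubset hk) t₁ b h2.le hcov2
      calc dist (G a) (G b) ≤ dist (G a) (G t₁) + dist (G t₁) (G b) := dist_triangle _ _ _
        _ ≤ C * (t₁ - a) + C * (b - t₁) := add_le_add h1 h3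
        _ = C * (b - a) := by ring

section sem
variable {K : Type} [NormedField K] {V : Type} [AddCommGroup V] [Module K V]

/-- diagonal seminorm -/
noncomputable def Nf {n : ℕ} (f : Fin n → V →ₗ[K] K) (w : Fin n → ℝ) (x : V) : ℝ≥0 :=
  Finset.univ.sup fun i => ‖f i x‖₊ * ex (w i)

lemma le_Nf {n : ℕ} (f : Fin n → V →ₗ[K] K) (w : Fin n → ℝ) (x : V) (i : Fin n) :
    ‖f i x‖₊ * ex (w i) ≤ Nf f w x :=
  Finset.le_sup (f := fun i => ‖f i x‖₊ * ex (w i)) (Finset.mem_univ i)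

lemma Nf_le {n : ℕ} (f : Fin n → V →ₗ[K] K) (w : Fin n → ℝ) (x : V) {c : ℝ≥0}
    (h : ∀ i, ‖f i x‖₊ * ex (w i) ≤ c) : Nf f w x ≤ c :=
  Finset.sup_le fun i _ => h i

lemma Nf_exists {n : ℕ} (f : Fin (n + 1) → V →ₗ[K] K) (w : Fin (n + 1) → ℝ) (x : V) :
    ∃ i, Nf f w x = ‖f i x‖₊ * ex (w i) := by
  obtain ⟨i, -, hi⟩ := Finset.exists_mem_eq_sup Finset.univ Finset.univ_nonempty
    (fun i => ‖f i x‖₊ * ex (w i))
  exact ⟨i, hi⟩

lemma Nf_zero_iff {n : ℕ} (f : Fin n → V →ₗ[K] K) (w : Fin n → ℝ) (x : V) :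
    Nf f w x = 0 ↔ ∀ i, f i x = 0 := by
  constructor
  · intro h i
    have := le_Nf f w x i
    rw [h, nonpos_iff_eq_zero, mul_eq_zero, nnnorm_eq_zero] at this
    exact this.resolve_right (ex_ne _)
  · intro h
    refine le_antisymm (Nf_le _ _ _ fun i => ?_) (zero_le)
    rw [h i, nnnorm_zero, zero_mul]

lemma Nf_smul {n : ℕ} (f : Fin n → V →ₗ[K] K) (w : Fin n → ℝ) (t : K) (x : V) :
    Nf f w (t • x) = ‖t‖₊ * Nf f w x := by
  rw [Nf, Nf, NNReal.mul_finset_sup]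
  refine Finset.sup_congr rfl fun i _ => ?_
  rw [map_smul, smul_eq_mul, nnnorm_mul, mul_assoc]

lemma Nf_split {n : ℕ} (f : Fin (n + 1) → V →ₗ[K] K) (w : Fin (n + 1) → ℝ) (i : Fin (n + 1)) (x : V) :
    Nf f w x = max (‖f i x‖₊ * ex (w i)) (Nf (fun k => f (i.succAbove k)) (fun k => w (i.succAbove k)) x) := by
  apply le_antisymm
  · refine Nf_le _ _ _ fun j => ?_
    rcases Fin.eq_self_or_eq_succAbove i j with rfl | ⟨k, rfl⟩
    · exact le_max_left _ _
    · exact (le_Nf (fun k => f (i.succAbove k)) (fun k => w (i.succAbove k)) x k).trans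
        (le_max_right _ _)
  · refine max_le (le_Nf f w x i) (Nf_le _ _ _ fun k => le_Nf f w x _)

/-- quotient seminorm by a line, as a function on the same space -/
noncomputable def qt (z : V → ℝ≥0) (b : V) (x : V) : ℝ≥0 := ⨅ t : K, z (x + t • b)

/-- ultrametric seminorm -/
structure US (K : Type) [NormedField K] {V : Type} [AddCommGroup V] [Module K V] (z : V → ℝ≥0) :
    Prop where
  add : ∀ x y, z (x + y) ≤ max (z x) (z y)
  smul : ∀ (t : K) x, z (t • x) = ‖t‖₊ * z x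

lemma US.sub {z : V → ℝ≥0} (h : US K z) (x y : V) : z (x - y) ≤ max (z x) (z y) := by
  have h1 : x - y = x + (-1 : K) • y := by rw [neg_one_smul, sub_eq_add_neg]
  rw [h1]
  refine (h.add _ _).trans ?_
  rw [h.smul, nnnorm_neg, nnnorm_one, one_mul]

lemma US.zero {z : V → ℝ≥0} (h : US K z) : z 0 = 0 := by
  have := h.smul 0 0
  rwa [nnnorm_zero, zero_mul, smul_zero] at this

lemma Nf_US [IsUltrametricDist K] {n : ℕ} (f : Fin n → V →ₗ[K] K) (w : Fin n → ℝ) :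
    US K (Nf f w) := by
  refine ⟨fun x y => ?_, fun t x => Nf_smul f w t x⟩
  refine Nf_le _ _ _ fun i => ?_
  rw [map_add]
  rcases le_max_iff.mp (IsUltrametricDist.nnnorm_add_le_max (f i x) (f i y)) with h | h
  · exact ((mul_le_mul_left h _).trans (le_Nf f w x i)).trans (le_max_left _ _)
  · exact ((mul_le_mul_left h _).trans (le_Nf f w y i)).trans (le_max_right _ _)

/-- splitting off a line along a norming functional -/
lemma qt_eq {z : V → ℝ≥0} (hz : US K z) {b : V} {φ : V →ₗ[K] K} (hb : φ b = 1)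
    (hφ : ∀ x, ‖φ x‖₊ * z b ≤ z x) (x : V) : qt (K := K) z b x = z (x - φ x • b) := by
  apply le_antisymm
  · have : x - φ x • b = x + (-φ x) • b := by rw [neg_smul, sub_eq_add_neg]
    rw [this]
    exact ciInf_le ⟨0, by rintro _ ⟨t, rfl⟩; exact zero_le⟩ (-φ x)
  · refine le_ciInf fun t => ?_
    have h1 : x - φ x • b = (x + t • b) - (φ (x + t • b)) • b := by
      rw [map_add, map_smul, hb, smul_eq_mul, mul_one, add_smul]
      abel
    rw [h1]
    refine (hz.sub _ _).trans (max_le le_rfl ?_)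
    rw [hz.smul]
    exact hφ _

lemma split_eq {z : V → ℝ≥0} (hz : US K z) {b : V} {φ : V →ₗ[K] K} (hb : φ b = 1)
    (hφ : ∀ x, ‖φ x‖₊ * z b ≤ z x) (x : V) : z x = max (‖φ x‖₊ * z b) (qt (K := K) z b x) := by
  apply le_antisymm
  · rw [qt_eq hz hb hφ, ← hz.smul, max_comm]
    refine le_trans (le_of_eq ?_) (hz.add _ _)
    rw [sub_add_cancel]
  · refine max_le (hφ x) ?_
    rw [qt_eq hz hb hφ]
    refine (hz.sub _ _).trans (max_le le_rfl ?_)
    rw [hz.smul]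
    exact hφ x

/-- pivot of a vector -/
lemma piv [IsUltrametricDist K] {n : ℕ} (f : Fin (n + 1) → V →ₗ[K] K) (w : Fin (n + 1) → ℝ) (b : V)
    (i : Fin (n + 1)) (hi : f i b ≠ 0) (hm : ∀ k, ‖f k b‖₊ * ex (w k) ≤ ‖f i b‖₊ * ex (w i)) :
    Nf f w b = ‖f i b‖₊ * ex (w i) ∧ ((f i b)⁻¹ • f i) b = 1 ∧
    (∀ x, ‖((f i b)⁻¹ • f i) x‖₊ * Nf f w b ≤ Nf f w x) ∧
    qt (K := K) (Nf f w) b =
      Nf (fun k => f (i.succAbove k) - (f (i.succAbove k) b / f i b) • f i)
        (fun k => w (i.succAbove k)) := by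
  have h1 : Nf f w b = ‖f i b‖₊ * ex (w i) := le_antisymm (Nf_le _ _ _ hm) (le_Nf f w b i)
  have h2 : ((f i b)⁻¹ • f i) b = 1 := by
    rw [LinearMap.smul_apply, smul_eq_mul, inv_mul_cancel₀ hi]
  have h3 : ∀ x, ‖((f i b)⁻¹ • f i) x‖₊ * Nf f w b ≤ Nf f w x := by
    intro x
    rw [h1, LinearMap.smul_apply, smul_eq_mul, nnnorm_mul, nnnorm_inv]
    have h4 : ‖f i b‖₊ ≠ 0 := by rwa [Ne, nnnorm_eq_zero]
    calc ‖f i b‖₊⁻¹ * ‖f i x‖₊ * (‖f i b‖₊ * ex (w i))
        = (‖f i b‖₊⁻¹ * ‖f i b‖₊) * (‖f i x‖₊ * ex (w i)) := by ring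
      _ = ‖f i x‖₊ * ex (w i) := by rw [inv_mul_cancel₀ h4, one_mul]
      _ ≤ _ := le_Nf f w x i
  refine ⟨h1, h2, h3, ?_⟩
  funext x
  rw [qt_eq (Nf_US f w) h2 h3 x, Nf_split f w i]
  have h5 : f i (x - ((f i b)⁻¹ • f i) x • b) = 0 := by
    rw [map_sub, map_smul, LinearMap.smul_apply, smul_eq_mul, smul_eq_mul]
    field_simp
    ring
  rw [h5, nnnorm_zero, zero_mul, max_eq_right (zero_le)]
  unfold Nf
  refine Finset.sup_congr rfl fun k _ => ?_
  congr 2
  rw [map_sub, map_smul, LinearMap.smul_apply, smul_eq_mul, smul_eq_mul, LinearMap.sub_apply,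
    LinearMap.smul_apply, smul_eq_mul]
  field_simp

/-- a vector in the kernel -/
lemma qt_ker {z : V → ℝ≥0} (hz : US K z) {b : V} (hb : z b = 0) : qt (K := K) z b = z := by
  funext x
  apply le_antisymm
  · have := ciInf_le (f := fun t : K => z (x + t • b)) ⟨0, by rintro _ ⟨t, rfl⟩; exact zero_le⟩ 0
    rwa [zero_smul, add_zero] at this
  · refine le_ciInf fun t => ?_
    have h1 : x = (x + t • b) - t • b := by abel
    calc z x = z ((x + t • b) - t • b) := by rw [← h1]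
      _ ≤ max (z (x + t • b)) (z (t • b)) := hz.sub _ _
      _ = z (x + t • b) := by rw [hz.smul, hb, mul_zero, max_eq_left (zero_le)]

end sem

end Pool.Agent.Helper71.NA
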